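import Pool.Agent.V5helper50.RS.Stm

/-!
# Project RS, job MC: crude form of the bound for the sum of the means
-/

set_option autoImplicit false

namespace Pool.Agent.V5helper7.RS

open Finset
open Pool.Agent.V5helper50.RS

theorem exists_root (k u : ℕ) (hk : 1 ≤ k) : ∃ L, L ^ k ≤ u ∧ u < (L + 1) ^ k := by
  classical
  have h : ∃ L, u < (L + 1) ^ k :=
    ⟨u, lt_of_lt_of_le (Nat.lt_succ_self u) (Nat.le_self_pow (by omega) _)⟩
  refine ⟨Nat.find h, ?_, Nat.find_spec h⟩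
  rcases Nat.eq_zero_or_pos (Nat.find h) with h0 | h0
  · rw [h0, zero_pow (by omega)]
    exact Nat.zero_le _
  · have h1 := Nat.find_min h (m := Nat.find h - 1) (by omega)
    rw [Nat.sub_add_cancel h0] at h1
    omega

theorem M_le (k Q j u : ℕ) : M k Q j u ≤ Q ^ j := by
  unfold M
  refine (card_filter_le _ _).trans ?_
  rw [Fintype.card_piFinset]
  simp

theorem w_le (k Q j u i x : ℕ) : w k Q j u i x ≤ x ^ (j - i) := by
  unfold w
  refine (card_filter_le _ _).trans ?_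
  rw [Fintype.card_piFinset]
  simp

theorem w_zero {k Q j u i x L₀ : ℕ} (hi : 1 ≤ i) (hx : L₀ ≤ x) (hu : u < L₀ ^ k) :
    w k Q j u i x = 0 := by
  unfold w
  rw [card_eq_zero, filter_eq_empty_iff]
  rintro y - ⟨-, h1, -⟩
  have h2 : L₀ ^ k ≤ x ^ k := Nat.pow_le_pow_left hx k
  have h3 : x ^ k ≤ i * x ^ k := Nat.le_mul_of_pos_left _ hi
  omega

theorem m_nonneg (k Q j u x : ℕ) : 0 ≤ m k Q j u x := by
  unfold m
  positivity

theorem m_le (k Q j u x : ℕ) :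
    m k Q j u x ≤ ∑ i ∈ Icc 1 j, (j.choose i : ℝ) * (x : ℝ) ^ (j - i) := by
  unfold m
  have h0 : (1 : ℝ) ≤ Tk k x := by exact_mod_cast Tk_pos k x
  have h1 : (0 : ℝ) ≤ ∑ i ∈ Icc 1 j, (j.choose i : ℝ) * (w k Q j u i x : ℝ) := by positivity
  refine (div_le_self h1 h0).trans (sum_le_sum fun i _ => ?_)
  refine mul_le_mul_of_nonneg_left ?_ (Nat.cast_nonneg _)
  exact_mod_cast w_le k Q j u i x

theorem m_zero {k Q j u x L₀ : ℕ} (hx : L₀ ≤ x) (hu : u < L₀ ^ k) : m k Q j u x = 0 := by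
  unfold m
  rw [sum_eq_zero, zero_div]
  intro i hi
  rw [mem_Icc] at hi
  rw [w_zero hi.1 hx hu]
  simp

theorem ratio_le {j k L L' : ℕ} (h1 : 1 ≤ L') (h2 : L' ≤ L + 1) (hL : 1 ≤ L) :
    (L' : ℝ) ^ j / (L' : ℝ) ^ k ≤ 2 ^ j * max 1 ((L : ℝ) ^ j / (L : ℝ) ^ k) := by
  have h1' : (1 : ℝ) ≤ L' := by exact_mod_cast h1
  have hL' : (1 : ℝ) ≤ L := by exact_mod_cast hL
  have h2' : (L' : ℝ) ≤ 2 * L := by
    have : (L' : ℝ) ≤ L + 1 := by exact_mod_cast h2
    linarith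
  have hmax : (1 : ℝ) ≤ max 1 ((L : ℝ) ^ j / (L : ℝ) ^ k) := le_max_left _ _
  have h2j : (1 : ℝ) ≤ 2 ^ j := one_le_pow₀ (by norm_num)
  rcases le_or_gt j k with h | h
  · have h3 : (L' : ℝ) ^ j / (L' : ℝ) ^ k ≤ 1 := by
      rw [div_le_one (by positivity)]
      exact pow_le_pow_right₀ h1' h
    nlinarith
  · obtain ⟨e, rfl⟩ := Nat.exists_eq_add_of_lt h
    have e1 : ∀ z : ℝ, 1 ≤ z → z ^ (k + e + 1) / z ^ k = z ^ (e + 1) := by
      intro z hz
      have : z ^ k ≠ 0 := by positivity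
      rw [show k + e + 1 = k + (e + 1) by ring, pow_add]
      field_simp
    rw [e1 _ h1', e1 _ hL']
    have h3 : (L' : ℝ) ^ (e + 1) ≤ (2 * L) ^ (e + 1) := by gcongr
    have h4 : (2 * (L : ℝ)) ^ (e + 1) = 2 ^ (e + 1) * (L : ℝ) ^ (e + 1) := mul_pow _ _ _
    have h5 : (2 : ℝ) ^ (e + 1) ≤ 2 ^ (k + e + 1) := pow_le_pow_right₀ (by norm_num) (by omega)
    calc (L' : ℝ) ^ (e + 1) ≤ 2 ^ (e + 1) * (L : ℝ) ^ (e + 1) := by rw [← h4]; exact h3
      _ ≤ 2 ^ (k + e + 1) * max 1 ((L : ℝ) ^ (e + 1)) := by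
        refine mul_le_mul h5 (le_max_right _ _) (by positivity) (by positivity)

theorem t_MC : S_MC := by
  intro hMB hINT hRES k Q j hk hQ hj
  obtain ⟨C₀, hC₀, h⟩ := hMB hINT hRES k j hk hj
  obtain ⟨C', L₀, hC', hL₀, h⟩ := h Q hQ
  set B : ℝ := ∑ x ∈ range L₀, ∑ i ∈ Icc 1 j, (j.choose i : ℝ) * (x : ℝ) ^ (j - i) with hB
  have hB0 : 0 ≤ B := by positivity
  have hQ' : (1 : ℝ) ≤ Q := by exact_mod_cast hQ
  refine ⟨(C₀ * Q + C') * 2 ^ j + B, by positivity, ?_⟩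
  intro L u n hL hu
  have hmax : (1 : ℝ) ≤ max 1 ((L : ℝ) ^ j / (L : ℝ) ^ k) := le_max_left _ _
  rcases lt_or_ge u (L₀ ^ k) with hlt | hge
  · have h1 : ∑ x ∈ range n, m k Q j u x ≤ B := by
      calc ∑ x ∈ range n, m k Q j u x ≤ ∑ x ∈ range (max n L₀), m k Q j u x :=
            sum_le_sum_of_subset_of_nonneg (range_mono (le_max_left _ _))
              (fun x _ _ => m_nonneg k Q j u x)
        _ = ∑ x ∈ range L₀, m k Q j u x := by
            symm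
            refine sum_subset (range_mono (le_max_right _ _)) fun x _ hx => ?_
            rw [mem_range, not_lt] at hx
            exact m_zero hx hlt
        _ ≤ B := sum_le_sum fun x _ => m_le k Q j u x
    have h2 : (0 : ℝ) ≤ (C₀ * Q + C') * 2 ^ j := by positivity
    nlinarith
  · obtain ⟨L', h1, h2⟩ := exists_root k u (by omega)
    have h3 : L₀ ≤ L' := by
      by_contra hcon
      have : (L' + 1) ^ k ≤ L₀ ^ k := Nat.pow_le_pow_left (by omega) k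
      omega
    have h4 : L' ≤ L + 1 := by
      by_contra hcon
      have : (L + 1) ^ k < L' ^ k := Nat.pow_lt_pow_left (by omega) (by omega)
      omega
    have h5 := h L' u n h3 h1 h2
    have hL'1 : 1 ≤ L' := le_trans hL₀ h3
    have hL'r : (1 : ℝ) ≤ L' := by exact_mod_cast hL'1
    have h6 := ratio_le (j := j) (k := k) hL'1 h4 hL
    have h7 : (M k Q j u : ℝ) / (Q : ℝ) ^ (j - 1) ≤ Q := by
      rw [div_le_iff₀ (by positivity)]
      have : (M k Q j u : ℝ) ≤ (Q : ℝ) ^ j := by exact_mod_cast M_le k Q j u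
      refine this.trans (le_of_eq ?_)
      rw [← pow_succ']
      congr 1
      omega
    have h8 : (L' : ℝ) ^ j / (L' : ℝ) ^ (k + 1) ≤ (L' : ℝ) ^ j / (L' : ℝ) ^ k := by
      refine div_le_div_of_nonneg_left (by positivity) (by positivity) ?_
      exact pow_le_pow_right₀ hL'r (by omega)
    set ρ := (L' : ℝ) ^ j / (L' : ℝ) ^ k with hρ
    have hρ0 : 0 ≤ ρ := by positivity
    set X := max 1 ((L : ℝ) ^ j / (L : ℝ) ^ k) with hX
    have h9 : C₀ * ρ * ((M k Q j u : ℝ) / (Q : ℝ) ^ (j - 1)) ≤ C₀ * ρ * Q :=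
      mul_le_mul_of_nonneg_left h7 (by positivity)
    have h10 : C' * ((L' : ℝ) ^ j / (L' : ℝ) ^ (k + 1)) ≤ C' * ρ :=
      mul_le_mul_of_nonneg_left h8 hC'.le
    have h11 : (C₀ * Q + C') * ρ ≤ (C₀ * Q + C') * (2 ^ j * X) :=
      mul_le_mul_of_nonneg_left h6 (by positivity)
    have h12 : 0 ≤ B * X := by positivity
    calc ∑ x ∈ range n, m k Q j u x ≤ C₀ * ρ * Q + C' * ρ := h5.trans (add_le_add h9 h10)
      _ = (C₀ * Q + C') * ρ := by ring
      _ ≤ (C₀ * Q + C') * (2 ^ j * X) := h11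
      _ ≤ ((C₀ * Q + C') * 2 ^ j + B) * X := by nlinarith

end Pool.Agent.V5helper7.RS
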